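import Pool.Agent.W95.TC.Main

set_option autoImplicit false

namespace Pool.Agent.W95.TC

open Complex Set Pool.Agent.Helper448.VanKampen

theorem inc_cong {h k : ℝ → ℂ} (e : ∀ x, h x = k x) : inc h = inc k := by
  have : h = k := funext e
  rw [this]

/-- the complementary arc avoids the contact point -/
theorem bar_avoid (Γ : ℝ → ℂ) (hinj : ∀ x y, Γ x = Γ y → ∃ n : ℤ, x = y + n)
    (A B t : ℝ) (hlen : |A - B| < 1) (ht : t ∈ uIcc A B) (hA : t ≠ A) (hB : t ≠ B) :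
    ∃ σ : ℤ, (σ = 1 ∨ σ = -1) ∧ ∀ x : ℝ, Γ (B + cl x * (A + σ - B)) ≠ Γ t := by
  rw [abs_lt] at hlen
  rw [mem_uIcc] at ht
  rcases ht with ht | ht
  · have h1 : A < t := lt_of_le_of_ne ht.1 hA.symm
    have h2 : t < B := lt_of_le_of_ne ht.2 hB
    refine ⟨1, Or.inl rfl, fun x hx => ?_⟩
    obtain ⟨n, hn⟩ := hinj _ _ hx
    have hc := cl_mem x
    have e1 : B ≤ B + cl x * (A + (1 : ℤ) - B) := by
      have : 0 ≤ cl x * (A + (1 : ℤ) - B) := mul_nonneg hc.1 (by push_cast; linarith)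
      linarith
    have e2 : B + cl x * (A + (1 : ℤ) - B) ≤ A + 1 := by
      have : cl x * (A + (1 : ℤ) - B) ≤ 1 * (A + (1 : ℤ) - B) :=
        mul_le_mul_of_nonneg_right hc.2 (by push_cast; linarith)
      push_cast at this ⊢
      linarith
    rw [hn] at e1 e2
    have e3 : (0 : ℝ) < n := by linarith
    have e4 : (n : ℝ) < 1 := by linarith
    have e5 : (0 : ℤ) < n := by exact_mod_cast e3
    have e6 : n < 1 := by exact_mod_cast e4
    omega
  · have h1 : B < t := lt_of_le_of_ne ht.1 hB.symm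
    have h2 : t < A := lt_of_le_of_ne ht.2 hA
    refine ⟨-1, Or.inr rfl, fun x hx => ?_⟩
    obtain ⟨n, hn⟩ := hinj _ _ hx
    have hc := cl_mem x
    have e1 : B + cl x * (A + (-1 : ℤ) - B) ≤ B := by
      have : cl x * (A + (-1 : ℤ) - B) ≤ 0 := mul_nonpos_of_nonneg_of_nonpos hc.1
        (by push_cast; linarith)
      linarith
    have e2 : A - 1 ≤ B + cl x * (A + (-1 : ℤ) - B) := by
      have : 0 ≤ (1 - cl x) * (B - (A - 1)) := mul_nonneg (by linarith [hc.2]) (by linarith)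
      push_cast
      nlinarith
    rw [hn] at e1 e2
    have e3 : (-1 : ℝ) < n := by linarith
    have e4 : (n : ℝ) < 0 := by linarith
    have e5 : (-1 : ℤ) < n := by exact_mod_cast e3
    have e6 : n < 0 := by exact_mod_cast e4
    omega

theorem per_pm {Γ : ℝ → ℂ} (hper : ∀ x, Γ (x + 1) = Γ x) (A : ℝ) {σ : ℤ} (h : σ = 1 ∨ σ = -1) :
    Γ (A + σ) = Γ A := by
  rcases h with rfl | rfl
  · push_cast; exact hper A
  · have := hper (A + ((-1 : ℤ) : ℝ))
    rw [← this]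
    congr 1
    push_cast
    ring

/-- Two closed curves which meet in at most one point have vanishing intersection indices, and so
have arcs of them. -/
theorem sep_touch (Γ Δ : ℝ → ℂ) (hΓ : Continuous Γ) (hΔ : Continuous Δ)
    (pΓ : ∀ x, Γ (x + 1) = Γ x) (pΔ : ∀ x, Δ (x + 1) = Δ x)
    (iΓ : ∀ x y, Γ x = Γ y → ∃ n : ℤ, x = y + n) (iΔ : ∀ x y, Δ x = Δ y → ∃ n : ℤ, x = y + n)
    (hone : (range Γ ∩ range Δ).Subsingleton) (α α' β β' : ℝ) (hα : 0 ≤ α') (hα1 : α' < 1)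
    (hβ : 0 ≤ β') (hβ1 : β' < 1) :
    Sep (fun t => Γ (α + cl t * α')) (fun t => Δ (β + cl t * β')) := by
  intro a b c d h1 h2 h3 h4
  -- the parameter functions
  set φ : ℝ → ℝ := fun x => α + cl (a + cl x * (b - a)) * α' with hφ
  set ψ : ℝ → ℝ := fun x => β + cl (c + cl x * (d - c)) * β' with hψ
  have hφc : Continuous φ := by
    rw [hφ]
    exact continuous_const.add ((continuous_cl.comp
      (continuous_const.add (continuous_cl.mul continuous_const))).mul continuous_const)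
  have hψc : Continuous ψ := by
    rw [hψ]
    exact continuous_const.add ((continuous_cl.comp
      (continuous_const.add (continuous_cl.mul continuous_const))).mul continuous_const)
  have eφ0 : φ 0 = α + cl a * α' := by simp [hφ, cl_zero]
  have eφ1 : φ 1 = α + cl b * α' := by simp [hφ, cl_one]
  have eψ0 : ψ 0 = β + cl c * β' := by simp [hψ, cl_zero]
  have eψ1 : ψ 1 = β + cl d * β' := by simp [hψ, cl_one]
  have hmono : ∀ (α α' a b : ℝ), 0 ≤ α' → ∀ x : ℝ, α + cl (a + cl x * (b - a)) * α' ∈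
      uIcc (α + cl a * α') (α + cl b * α') := by
    intro α α' a b hα x
    have h := sub_par a b x
    rw [mem_uIcc] at h ⊢
    rcases h with h | h
    · left
      exact ⟨by have := mul_le_mul_of_nonneg_right (cl_mono h.1) hα; linarith,
        by have := mul_le_mul_of_nonneg_right (cl_mono h.2) hα; linarith⟩
    · right
      exact ⟨by have := mul_le_mul_of_nonneg_right (cl_mono h.1) hα; linarith,
        by have := mul_le_mul_of_nonneg_right (cl_mono h.2) hα; linarith⟩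
  have hlenf : ∀ (α α' a b : ℝ), 0 ≤ α' → α' < 1 →
      |(α + cl a * α') - (α + cl b * α')| < 1 := by
    intro α α' a b hα hα1
    have ha := cl_mem a
    have hb := cl_mem b
    rw [abs_lt]
    constructor <;> nlinarith [ha.1, ha.2, hb.1, hb.2]
  have hU : ∀ x, sub (fun t => Γ (α + cl t * α')) a b x = Γ (φ x) := fun x => rfl
  have hV : ∀ x, sub (fun t => Δ (β + cl t * β')) c d x = Δ (ψ x) := fun x => rfl
  have ea : Γ (α + cl a * α') = Γ (φ 0) := by rw [eφ0]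
  have eb : Γ (α + cl b * α') = Γ (φ 1) := by rw [eφ1]
  have ec : Δ (β + cl c * β') = Δ (ψ 0) := by rw [eψ0]
  have ed : Δ (β + cl d * β') = Δ (ψ 1) := by rw [eψ1]
  simp only [hU, hV, ea, eb, ec, ed] at h1 h2 h3 h4 ⊢
  by_cases hdis : ∀ s t, Γ (φ s) ≠ Δ (ψ t)
  · exact inc_square (fun x => Γ (φ x)) (fun x => Δ (ψ x)) (hΓ.comp hφc) (hΔ.comp hψc) hdis
  · push Not at hdis
    obtain ⟨x0, y0, hp⟩ := hdis
    -- the common point
    have hpmem : Γ (φ x0) ∈ range Γ ∩ range Δ := ⟨⟨_, rfl⟩, ⟨_, hp.symm⟩⟩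
    have hΓp : ∀ s t, Γ s = Δ t → Γ s = Γ (φ x0) := fun s t hst =>
      hone ⟨⟨_, rfl⟩, ⟨_, hst.symm⟩⟩ hpmem
    -- parameters
    have hΔp : ∀ s t, Γ s = Δ t → Δ t = Δ (ψ y0) := fun s t hst =>
      hst ▸ (hΓp s t hst).trans hp
    have tA : φ x0 ≠ φ 0 := fun h => h3 y0 (by rw [← hp, h])
    have tB : φ x0 ≠ φ 1 := fun h => h4 y0 (by rw [← hp, h])
    have tC : ψ y0 ≠ ψ 0 := fun h => h1 x0 (by rw [hp, h])
    have tD : ψ y0 ≠ ψ 1 := fun h => h2 x0 (by rw [hp, h])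
    obtain ⟨σ, hσ, hUb⟩ := bar_avoid Γ iΓ (φ 0) (φ 1) (φ x0)
      (by rw [eφ0, eφ1]; exact hlenf α α' a b hα hα1)
      (by rw [eφ0, eφ1]; exact hmono α α' a b hα x0) tA tB
    obtain ⟨τ, hτ, hVb⟩ := bar_avoid Δ iΔ (ψ 0) (ψ 1) (ψ y0)
      (by rw [eψ0, eψ1]; exact hlenf β β' c d hβ hβ1)
      (by rw [eψ0, eψ1]; exact hmono β β' c d hβ y0) tC tD
    have hUb' : ∀ x t, Γ (φ 1 + cl x * (φ 0 + σ - φ 1)) ≠ Δ t := fun x t h =>
      hUb x (hΓp _ _ h)
    have hVb' : ∀ s y, Γ s ≠ Δ (ψ 1 + cl y * (ψ 0 + τ - ψ 1)) := fun s y h =>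
      hVb y (hΔp _ _ h)
    -- continuous logarithms
    have hC : ∀ s, Γ s - Δ (ψ 0) ≠ 0 := fun s h => by
      have h' : Γ s = Δ (ψ 0) := sub_eq_zero.1 h
      have := hΓp _ _ h'
      exact h1 x0 (by rw [← this, h'])
    have hD : ∀ s, Γ s - Δ (ψ 1) ≠ 0 := fun s h => by
      have h' : Γ s = Δ (ψ 1) := sub_eq_zero.1 h
      have := hΓp _ _ h'
      exact h2 x0 (by rw [← this, h'])
    obtain ⟨f1, f1c, f1e⟩ := exists_log1 (fun s => Γ s - Δ (ψ 0)) (hΓ.sub continuous_const) hC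
    obtain ⟨f2, f2c, f2e⟩ := exists_log1 (fun s => Γ s - Δ (ψ 1)) (hΓ.sub continuous_const) hD
    have bc : ∀ P Q : ℝ, Continuous (fun x : ℝ => P + cl x * Q) := fun P Q =>
      continuous_const.add (continuous_cl.mul continuous_const)
    have i1 : inc (fun x => Γ (φ x) - Δ (ψ 0)) = f1 (φ 1) - f1 (φ 0) :=
      inc_eq _ (fun x => f1 (φ x)) (f1c.comp hφc) (fun x => f1e _)
    have i2 : inc (fun x => Γ (φ x) - Δ (ψ 1)) = f2 (φ 1) - f2 (φ 0) :=
      inc_eq _ (fun x => f2 (φ x)) (f2c.comp hφc) (fun x => f2e _)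
    -- the complementary arc against `V`
    have s1 := inc_square (fun x => Γ (φ 1 + cl x * (φ 0 + σ - φ 1))) (fun x => Δ (ψ x))
      (hΓ.comp (bc _ _)) (hΔ.comp hψc) (fun s t => hUb' s _)
    simp only [cl_zero, cl_one, zero_mul, one_mul, add_zero, add_sub_cancel] at s1
    rw [per_pm pΓ (φ 0) hσ] at s1
    have i3 : inc (fun x => Γ (φ 1 + cl x * (φ 0 + σ - φ 1)) - Δ (ψ 0)) =
        f1 (φ 0 + σ) - f1 (φ 1) := by
      have := inc_eq (fun x => Γ (φ 1 + cl x * (φ 0 + σ - φ 1)) - Δ (ψ 0))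
        (fun x => f1 (φ 1 + cl x * (φ 0 + σ - φ 1))) (f1c.comp (bc _ _)) (fun x => f1e _)
      simpa only [cl_zero, cl_one, zero_mul, one_mul, add_zero, add_sub_cancel] using this
    have i4 : inc (fun x => Γ (φ 1 + cl x * (φ 0 + σ - φ 1)) - Δ (ψ 1)) =
        f2 (φ 0 + σ) - f2 (φ 1) := by
      have := inc_eq (fun x => Γ (φ 1 + cl x * (φ 0 + σ - φ 1)) - Δ (ψ 1))
        (fun x => f2 (φ 1 + cl x * (φ 0 + σ - φ 1))) (f2c.comp (bc _ _)) (fun x => f2e _)
      simpa only [cl_zero, cl_one, zero_mul, one_mul, add_zero, add_sub_cancel] using this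
    -- the full curve against the complement of `V`
    have s2 := inc_square (fun x => Γ (φ 0 + cl x * σ))
      (fun y => Δ (ψ 1 + cl y * (ψ 0 + τ - ψ 1)))
      (hΓ.comp (bc _ _)) (hΔ.comp (bc _ _)) (fun s t => hVb' _ t)
    simp only [cl_zero, cl_one, zero_mul, one_mul, add_zero, add_sub_cancel] at s2
    rw [per_pm pΓ (φ 0) hσ, per_pm pΔ (ψ 0) hτ] at s2
    have i5 : inc (fun x => Γ (φ 0 + cl x * σ) - Δ (ψ 0)) = f1 (φ 0 + σ) - f1 (φ 0) := by
      have := inc_eq (fun x => Γ (φ 0 + cl x * σ) - Δ (ψ 0))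
        (fun x => f1 (φ 0 + cl x * σ)) (f1c.comp (bc _ _)) (fun x => f1e _)
      simpa only [cl_zero, cl_one, zero_mul, one_mul, add_zero] using this
    have i6 : inc (fun x => Γ (φ 0 + cl x * σ) - Δ (ψ 1)) = f2 (φ 0 + σ) - f2 (φ 0) := by
      have := inc_eq (fun x => Γ (φ 0 + cl x * σ) - Δ (ψ 1))
        (fun x => f2 (φ 0 + cl x * σ)) (f2c.comp (bc _ _)) (fun x => f2e _)
      simpa only [cl_zero, cl_one, zero_mul, one_mul, add_zero] using this
    rw [i3, i4] at s1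
    rw [i5, i6] at s2
    rw [i1, i2]
    linear_combination -s1 - s2

end Pool.Agent.W95.TC
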