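import Pool.Agent.W95.TC.ClaimA

set_option autoImplicit false
set_option linter.unusedVariables false

namespace Pool.Agent.W95.TC

open Complex Set Pool.Agent.Helper448.VanKampen Pool.Agent.Helper805.CHS

/-- `p`, `q` are consecutive points of `H` on the arc `i`, with parameters `a`, `b` -/
def Cons {ι : Type} (g : ι → ℝ → ℂ) (H : Set ℂ) (i : ι) (p q : ℂ) (a b : ℝ) : Prop :=
  a ∈ Icc (0:ℝ) 1 ∧ b ∈ Icc (0:ℝ) 1 ∧ g i a = p ∧ g i b = q ∧
    ∀ c, min a b < c → c < max a b → g i c ∉ H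

theorem Cons.symm {ι : Type} {g : ι → ℝ → ℂ} {H : Set ℂ} {i : ι} {p q : ℂ} {a b : ℝ}
    (h : Cons g H i p q a b) : Cons g H i q p b a := by
  obtain ⟨h1, h2, h3, h4, h5⟩ := h
  exact ⟨h2, h1, h4, h3, fun c hc hc' => h5 c (by rwa [min_comm]) (by rwa [max_comm])⟩

/-- points of `H` on the sub-arc between consecutive points -/
theorem Cons.mem {ι : Type} {g : ι → ℝ → ℂ} {H : Set ℂ} {i : ι} {p q : ℂ} {a b : ℝ}
    (h : Cons g H i p q a b) {c : ℝ} (hc : c ∈ uIcc a b) (hH : g i c ∈ H) :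
    c = a ∨ c = b := by
  obtain ⟨h1, h2, h3, h4, h5⟩ := h
  by_contra hne
  push Not at hne
  have hmin : min a b ≤ c := hc.1
  have hmax : c ≤ max a b := hc.2
  have e1 : min a b < c := by
    rcases hmin.lt_or_eq with h | h
    · exact h
    · rcases min_choice a b with h' | h'
      · exact absurd (h.symm.trans h') hne.1
      · exact absurd (h.symm.trans h') hne.2
  have e2 : c < max a b := by
    rcases hmax.lt_or_eq with h | h
    · exact h
    · rcases max_choice a b with h' | h'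
      · exact absurd (h.trans h') hne.1
      · exact absurd (h.trans h') hne.2
  exact h5 c e1 e2 hH

theorem Cons.avoid {ι : Type} {g : ι → ℝ → ℂ} {H : Set ℂ} {i : ι} {p q : ℂ} {a b : ℝ}
    (h : Cons g H i p q a b) {w : ℂ} (hw : w ∈ H) (hp : w ≠ p) (hq : w ≠ q) (x : ℝ) :
    sub (g i) a b x ≠ w := by
  intro he
  have h1 := sub_par a b x
  have he' : g i (a + cl x * (b - a)) = w := he
  rcases h.mem h1 (by rw [he']; exact hw) with h2 | h2
  · rw [h2, h.2.2.1] at he'; exact hp he'.symm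
  · rw [h2, h.2.2.2.1] at he'; exact hq he'.symm

theorem uIcc_mem_unit {a b c : ℝ} (ha : a ∈ Icc (0:ℝ) 1) (hb : b ∈ Icc (0:ℝ) 1)
    (hc : c ∈ uIcc a b) : c ∈ Icc (0:ℝ) 1 :=
  ⟨le_trans (le_min ha.1 hb.1) hc.1, le_trans hc.2 (max_le ha.2 hb.2)⟩

/-- two different consecutive sub-arcs of the same arc without common ends are disjoint -/
theorem Cons.disj {ι : Type} {g : ι → ℝ → ℂ} (hg : SFam g) {H : Set ℂ} {i : ι}
    {p q p' q' : ℂ} {a b a' b' : ℝ} (hp : p ∈ H) (hq : q ∈ H) (hp' : p' ∈ H) (hq' : q' ∈ H)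
    (h : Cons g H i p q a b) (h' : Cons g H i p' q' a' b')
    (h1 : p ≠ p') (h2 : p ≠ q') (h3 : q ≠ p') (h4 : q ≠ q') (x y : ℝ) :
    sub (g i) a b x ≠ sub (g i) a' b' y := by
  intro he
  set c := a + cl x * (b - a) with hc
  set c' := a' + cl y * (b' - a') with hc'
  have m1 := sub_par a b x
  have m2 := sub_par a' b' y
  have he' : g i c = g i c' := he
  have hcc : c = c' := hg.inj i (uIcc_mem_unit h.1 h.2.1 m1) (uIcc_mem_unit h'.1 h'.2.1 m2) he'
  rw [← hc] at m1
  rw [← hc', ← hcc] at m2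
  have na : a ≠ a' := fun e => h1 (by rw [← h.2.2.1, ← h'.2.2.1, e])
  have nb : a ≠ b' := fun e => h2 (by rw [← h.2.2.1, ← h'.2.2.2.1, e])
  have nc : b ≠ a' := fun e => h3 (by rw [← h.2.2.2.1, ← h'.2.2.1, e])
  have nd : b ≠ b' := fun e => h4 (by rw [← h.2.2.2.1, ← h'.2.2.2.1, e])
  -- no parameter of an `H`-point lies in the other interval
  have ka : a ∉ uIcc a' b' := fun e => by
    rcases h'.mem e (by rw [h.2.2.1]; exact hp) with h | h
    · exact na h
    · exact nb h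
  have kb : b ∉ uIcc a' b' := fun e => by
    rcases h'.mem e (by rw [h.2.2.2.1]; exact hq) with h | h
    · exact nc h
    · exact nd h
  have ka' : a' ∉ uIcc a b := fun e => by
    rcases h.mem e (by rw [h'.2.2.1]; exact hp') with h | h
    · exact na h.symm
    · exact nc h.symm
  have kb' : b' ∉ uIcc a b := fun e => by
    rcases h.mem e (by rw [h'.2.2.2.1]; exact hq') with h | h
    · exact nb h.symm
    · exact nd h.symm
  rw [mem_uIcc] at *
  clear_value c c'
  have t1 := lt_or_ge a c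
  have t2 := lt_or_ge b c
  have t3 := lt_or_ge a' c
  have t4 := lt_or_ge b' c
  have t5 := le_total a a'
  have t6 := le_total a b'
  have t7 := le_total b a'
  have t8 := le_total b b'
  have t9 := le_total a b
  have t10 := le_total a' b'
  rcases t9 with t9 | t9 <;> rcases t10 with t10 | t10 <;> rcases m1 with m1 | m1 <;>
    rcases m2 with m2 | m2 <;> rcases t5 with t5 | t5 <;> rcases t6 with t6 | t6 <;>
    rcases t7 with t7 | t7 <;> rcases t8 with t8 | t8 <;>
    first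
    | (exfalso; apply ka; first | (left; constructor <;> linarith) | (right; constructor <;> linarith))
    | (exfalso; apply kb; first | (left; constructor <;> linarith) | (right; constructor <;> linarith))
    | (exfalso; apply ka'; first | (left; constructor <;> linarith) | (right; constructor <;> linarith))

def AdjB {ι : Type} (g : ι → ℝ → ℂ) (H : Set ℂ) (p q : ℂ) : Prop :=
  p ≠ q ∧ ∃ i a b, Cons g H i p q a b

def GB {ι : Type} (g : ι → ℝ → ℂ) (H : Set ℂ) : SimpleGraph H where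
  Adj p q := AdjB g H p.1 q.1
  symm := ⟨fun _ _ h => ⟨h.1.symm, by
    obtain ⟨i, a, b, h⟩ := h.2
    exact ⟨i, b, a, h.symm⟩⟩⟩
  loopless := ⟨fun _ h => h.1 rfl⟩

theorem no_K5_B {ι : Type} {g : ι → ℝ → ℂ} (hg : SFam g) (H : Set ℂ) :
    ¬ K5Model (GB g H) := by
  classical
  intro hmod
  have hne : Nonempty ι := by
    obtain ⟨f, -, -, h⟩ := hmod
    obtain ⟨a, -, b, -, hab⟩ := h 0 1 (by decide)
    obtain ⟨-, i, -⟩ := hab
    exact ⟨i⟩
  have hch : ∀ p q : H, ∃ s : ι × ℝ × ℝ, (GB g H).Adj p q →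
      Cons g H s.1 p q s.2.1 s.2.2 := by
    intro p q
    by_cases h : (GB g H).Adj p q
    · obtain ⟨h1, i, a, b, h2⟩ := h
      exact ⟨(i, a, b), fun _ => h2⟩
    · exact ⟨(hne.some, 0, 0), fun h' => absurd h' h⟩
  choose s hs using hch
  revert hmod
  let θ : H → H → H → ℂ := fun p q w =>
    inc (fun x => sub (g (s p q).1) (s p q).2.1 (s p q).2.2 x - w)
  refine no_K5 (GB g H) (fun p => p.1) Subtype.val_injective θ ?_ ?_
  · intro p q w hpq hwp hwq
    have hc := hs p q hpq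
    obtain ⟨n, hn⟩ := sub_inc_mod (hg.cont (s p q).1) (s p q).2.1 (s p q).2.2 w.1
      (hc.avoid w.2 (fun h => hwp (Subtype.ext h)) (fun h => hwq (Subtype.ext h)))
    refine ⟨n, ?_⟩
    simp only [θ]
    rw [hn, hc.2.2.1, hc.2.2.2.1]
  · intro p q p' q' h h' h1 h2 h3 h4
    have hc := hs p q h
    have hc' := hs p' q' h'
    have n1 : p.1 ≠ p'.1 := fun h => h1 (Subtype.ext h)
    have n2 : p.1 ≠ q'.1 := fun h => h2 (Subtype.ext h)
    have n3 : q.1 ≠ p'.1 := fun h => h3 (Subtype.ext h)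
    have n4 : q.1 ≠ q'.1 := fun h => h4 (Subtype.ext h)
    simp only [θ]
    by_cases hij : (s p q).1 = (s p' q').1
    · have hd := Cons.disj hg p.2 q.2 p'.2 q'.2 hc (hij ▸ hc') n1 n2 n3 n4
      have key := inc_square (sub (g (s p q).1) (s p q).2.1 (s p q).2.2)
        (sub (g (s p q).1) (s p' q').2.1 (s p' q').2.2)
        (sub_cont (hg.cont _) _ _) (sub_cont (hg.cont _) _ _) hd
      rw [sub_zero, sub_one, sub_zero, sub_one, hc.2.2.1, hc.2.2.2.1] at key
      have e1 := (hij ▸ hc' : Cons g H (s p q).1 p' q' (s p' q').2.1 (s p' q').2.2)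
      rw [e1.2.2.1, e1.2.2.2.1] at key
      rw [← hij]
      exact key
    · have key := sub_sq (hg.cont _) (hg.cont _) (hg.sep _ _ hij) (s p q).2.1 (s p q).2.2
        (s p' q').2.1 (s p' q').2.2
        (by rw [hc'.2.2.1]; exact hc.avoid p'.2 n1.symm n3.symm)
        (by rw [hc'.2.2.2.1]; exact hc.avoid q'.2 n2.symm n4.symm)
        (by rw [hc.2.2.1]; exact hc'.avoid p.2 n1 n2)
        (by rw [hc.2.2.2.1]; exact hc'.avoid q.2 n3 n4)
      rw [hc'.2.2.1, hc'.2.2.2.1, hc.2.2.1, hc.2.2.2.1] at key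
      exact key

/-- counting consecutive pairs: the sum over all arcs of (number of points of `H` on it minus one)
is at most `14 |H|` -/
theorem claimB {ι : Type} [Fintype ι] {g : ι → ℝ → ℂ} (hg : SFam g) (H : Finset ℂ)
    (h : ι → Finset ℂ) (hh : ∀ i z, z ∈ h i ↔ z ∈ H ∧ z ∈ range (g i)) :
    ∑ i, ((h i).card - 1) ≤ 14 * H.card := by
  classical
  -- parameters
  have hτ : ∀ i z, ∃ t ∈ Icc (0:ℝ) 1, z ∈ range (g i) → g i t = z := by
    intro i z
    by_cases h : z ∈ range (g i)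
    · obtain ⟨t, ht⟩ := h
      exact ⟨cl t, cl_mem t, fun _ => by rw [← hg.clamp]; exact ht⟩
    · exact ⟨0, by norm_num, fun h' => absurd h' h⟩
  choose τ hτ01 hτ using hτ
  -- not last points
  let N : ι → Finset ℂ := fun i => (h i).filter (fun z => ∃ w ∈ h i, τ i z < τ i w)
  have hN : ∀ i, (h i).card - 1 ≤ (N i).card := by
    intro i
    rcases (h i).eq_empty_or_nonempty with he | hne
    · rw [he]; simp
    · obtain ⟨m, hm, hmax⟩ := Finset.exists_max_image (h i) (τ i) hne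
      have : (h i).erase m ⊆ N i := by
        intro z hz
        obtain ⟨h1, h2⟩ := Finset.mem_erase.1 hz
        refine Finset.mem_filter.2 ⟨h2, m, hm, lt_of_le_of_ne (hmax z h2) ?_⟩
        intro he
        have e1 := hτ i z ((hh i z).1 h2).2
        have e2 := hτ i m ((hh i m).1 hm).2
        exact h1 (by rw [← e1, ← e2, he])
      have h3 := Finset.card_le_card this
      rwa [Finset.card_erase_of_mem hm] at h3
  have hnext : ∀ i z, ∃ w, z ∈ N i → w ∈ h i ∧ τ i z < τ i w ∧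
      ∀ v ∈ h i, τ i z < τ i v → τ i w ≤ τ i v := by
    intro i z
    by_cases hz : z ∈ N i
    · obtain ⟨h1, w0, hw0, hlt⟩ := Finset.mem_filter.1 hz
      obtain ⟨w, hw, hmin⟩ := Finset.exists_min_image ((h i).filter (fun w => τ i z < τ i w)) (τ i)
        ⟨w0, Finset.mem_filter.2 ⟨hw0, hlt⟩⟩
      refine ⟨w, fun _ => ⟨(Finset.mem_filter.1 hw).1, (Finset.mem_filter.1 hw).2, fun v hv hv' =>
        hmin v (Finset.mem_filter.2 ⟨hv, hv'⟩)⟩⟩
    · exact ⟨0, fun h' => absurd h' hz⟩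
  choose nx hnx using hnext
  have hNH : ∀ i z, z ∈ N i → z ∈ H := fun i z hz => ((hh i z).1 (Finset.mem_filter.1 hz).1).1
  have hxH : ∀ i z, z ∈ N i → nx i z ∈ H := fun i z hz => ((hh i _).1 (hnx i z hz).1).1
  have hadj : ∀ i z, z ∈ N i → AdjB g (H : Set ℂ) z (nx i z) := by
    intro i z hz
    obtain ⟨h1, h2, h3⟩ := hnx i z hz
    refine ⟨fun he => ?_, i, τ i z, τ i (nx i z), hτ01 _ _, hτ01 _ _, ?_, ?_, ?_⟩
    · rw [← he] at h2; exact lt_irrefl _ h2
    · exact hτ i z ((hh i z).1 (Finset.mem_filter.1 hz).1).2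
    · exact hτ i _ ((hh i _).1 h1).2
    · intro c hc hc' hcH
      rw [min_eq_left h2.le] at hc
      rw [max_eq_right h2.le] at hc'
      have hc01 : c ∈ Icc (0:ℝ) 1 := ⟨(hτ01 i z).1.trans hc.le, hc'.le.trans (hτ01 i _).2⟩
      have hmem : g i c ∈ h i := (hh i _).2 ⟨hcH, c, rfl⟩
      have hτc : τ i (g i c) = c := hg.inj i (hτ01 _ _) hc01 (hτ i _ ⟨c, rfl⟩)
      have := h3 _ hmem (by rw [hτc]; exact hc)
      rw [hτc] at this
      exact absurd hc' (not_lt.2 this)
  -- the set of pairs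
  let E : Finset (H × H) := Finset.univ.filter (fun e => AdjB g (H : Set ℂ) e.1.1 e.2.1)
  have hE : E.card ≤ 14 * H.card := by
    have := density (V := (H : Set ℂ)) (GB g (H : Set ℂ)) (no_K5_B hg _) (ι := H) (fun i => {⟨i.1, i.2⟩}) ?_ ?_ E ?_
    · rwa [Fintype.card_coe] at this
    · intro i
      have : Nonempty ({⟨i.1, i.2⟩} : Set (H : Set ℂ)) := ⟨⟨⟨i.1, i.2⟩, rfl⟩⟩
      have : Subsingleton ({⟨i.1, i.2⟩} : Set (H : Set ℂ)) := by
        constructor
        rintro ⟨a, ha⟩ ⟨b, hb⟩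
        rw [mem_singleton_iff] at ha hb
        exact Subtype.ext (ha.trans hb.symm)
      exact ⟨SimpleGraph.Preconnected.of_subsingleton⟩
    · intro i j hij
      rw [Set.disjoint_singleton]
      intro h
      exact hij (Subtype.ext (congrArg Subtype.val h))
    · intro e he
      have h1 := (Finset.mem_filter.1 he).2
      exact ⟨fun h => h1.1 (by rw [h]), ⟨e.1.1, e.1.2⟩, rfl, ⟨e.2.1, e.2.2⟩, rfl, h1⟩
  refine le_trans (Finset.sum_le_sum (fun i _ => hN i)) ?_
  rw [← Finset.card_sigma]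
  refine le_trans ?_ hE
  let F : (Σ _ : ι, ℂ) → ℂ × ℂ := fun x => (x.2, nx x.1 x.2)
  have hinj : Set.InjOn F (Finset.univ.sigma N : Finset (Σ _ : ι, ℂ)) := by
    rintro ⟨i, z⟩ hx ⟨j, w⟩ hy hxy
    have hx' : z ∈ N i := (Finset.mem_sigma.1 (Finset.mem_coe.1 hx)).2
    have hy' : w ∈ N j := (Finset.mem_sigma.1 (Finset.mem_coe.1 hy)).2
    obtain ⟨e1, e2⟩ := Prod.mk.inj hxy
    simp only at e1 e2
    subst e1
    have hij : i = j := by
      by_contra hne
      have k1 := ((hh i z).1 (Finset.mem_filter.1 hx').1).2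
      have k2 := ((hh j z).1 (Finset.mem_filter.1 hy').1).2
      have k3 := ((hh i _).1 (hnx i z hx').1).2
      have k4 := ((hh j _).1 (hnx j z hy').1).2
      rw [← e2] at k4
      exact (hadj i z hx').1 (hg.one i j hne ⟨k1, k2⟩ ⟨k3, k4⟩)
    subst hij
    rfl
  have himg : (Finset.univ.sigma N).image F ⊆ E.image (fun e => (e.1.1, e.2.1)) := by
    intro y hy
    obtain ⟨⟨i, z⟩, hx, rfl⟩ := Finset.mem_image.1 hy
    have hx' : z ∈ N i := (Finset.mem_sigma.1 hx).2
    exact Finset.mem_image.2 ⟨(⟨z, hNH i z hx'⟩, ⟨nx i z, hxH i z hx'⟩),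
      Finset.mem_filter.2 ⟨Finset.mem_univ _, hadj i z hx'⟩, rfl⟩
  rw [← Finset.card_image_of_injOn hinj]
  exact (Finset.card_le_card himg).trans Finset.card_image_le

end Pool.Agent.W95.TC
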