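import Pool.Agent.W95.TC.ClaimB

set_option autoImplicit false
set_option linter.unusedVariables false

namespace Pool.Agent.W95.TC

open Complex Set

section
variable {ι : Type} [Fintype ι]

open Classical in
/-- the arcs through a point -/
noncomputable def T (g : ι → ℝ → ℂ) (z : ℂ) : Finset ι := Finset.univ.filter (fun i => z ∈ range (g i))

theorem mem_T {g : ι → ℝ → ℂ} {z : ℂ} {i : ι} : i ∈ T g z ↔ z ∈ range (g i) := by
  classical
  simp [T]

theorem contact_finite {g : ι → ℝ → ℂ} (hg : SFam g) : {z : ℂ | 2 ≤ (T g z).card}.Finite := by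
  have h2 : (⋃ e : {e : ι × ι // e.1 ≠ e.2}, (range (g e.1.1) ∩ range (g e.1.2))).Finite :=
    finite_iUnion (fun e => (hg.one e.1.1 e.1.2 e.2).finite)
  refine h2.subset ?_
  intro z hz
  obtain ⟨a, ha, b, hb, hab⟩ := Finset.one_lt_card.1 (show 1 < (T g z).card from hz)
  exact mem_iUnion.2 ⟨⟨(a, b), hab⟩, mem_T.1 ha, mem_T.1 hb⟩

/-- sampling: few contact points of bounded multiplicity -/
theorem light_count {g : ι → ℝ → ℂ} (hg : SFam g) (L : ℕ) (Lt : Finset ℂ)
    (h2 : ∀ z ∈ Lt, 2 ≤ (T g z).card) (hL : ∀ z ∈ Lt, (T g z).card ≤ L) :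
    Lt.card ≤ 2 ^ L * (14 * Fintype.card ι) := by
  classical
  set n := Fintype.card ι with hn
  have hch : ∀ z, ∃ e : Option (ι × ι), z ∈ Lt → ∃ a b, e = some (a, b) ∧ a ∈ T g z ∧ b ∈ T g z ∧ a ≠ b := by
    intro z
    by_cases hz : z ∈ Lt
    · obtain ⟨a, ha, b, hb, hab⟩ := Finset.one_lt_card.1 (show 1 < (T g z).card from h2 z hz)
      exact ⟨some (a, b), fun _ => ⟨a, b, rfl, ha, hb, hab⟩⟩
    · exact ⟨none, fun h => absurd h hz⟩
  choose e he using hch
  rcases Lt.eq_empty_or_nonempty with h0 | ⟨z0, hz0⟩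
  · rw [h0]; simp
  obtain ⟨a0, b0, -⟩ := he z0 hz0
  let a : ℂ → ι := fun z => ((e z).getD (a0, b0)).1
  let b : ℂ → ι := fun z => ((e z).getD (a0, b0)).2
  have hab : ∀ z ∈ Lt, a z ∈ T g z ∧ b z ∈ T g z ∧ a z ≠ b z := by
    intro z hz
    obtain ⟨x, y, h, h1, h2, h3⟩ := he z hz
    simp only [a, b, h, Option.getD_some]
    exact ⟨h1, h2, h3⟩
  -- counting pairs (S, z)
  have key1 : ∀ S : Finset ι, (Lt.filter (fun z => S ∩ T g z = {a z, b z})).card ≤ 14 * n := by
    intro S
    have hE := claimA' hg S ((Lt.filter (fun z => S ∩ T g z = {a z, b z})).image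
      (fun z => (a z, b z))) ?_
    · rw [Finset.card_image_of_injOn] at hE
      · refine hE.trans (Nat.mul_le_mul_left _ ?_)
        rw [hn]; exact Finset.card_le_univ S
      · intro z hz w hw hzw
        have hz' := (Finset.mem_filter.1 (Finset.mem_coe.1 hz)).1
        have hw' := (Finset.mem_filter.1 (Finset.mem_coe.1 hw)).1
        obtain ⟨e1, e2⟩ := Prod.mk.inj hzw
        obtain ⟨z1, z2, z3⟩ := hab z hz'
        obtain ⟨w1, w2, w3⟩ := hab w hw'
        rw [← e1] at w1
        rw [← e2] at w2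
        exact hg.one _ _ z3 ⟨mem_T.1 z1, mem_T.1 z2⟩ ⟨mem_T.1 w1, mem_T.1 w2⟩
    · intro x hx
      obtain ⟨z, hz, rfl⟩ := Finset.mem_image.1 hx
      obtain ⟨hz1, hz2⟩ := Finset.mem_filter.1 hz
      obtain ⟨z1, z2, z3⟩ := hab z hz1
      have ha : a z ∈ S ∩ T g z := by rw [hz2]; simp
      have hb : b z ∈ S ∩ T g z := by rw [hz2]; simp
      refine ⟨(Finset.mem_inter.1 ha).1, (Finset.mem_inter.1 hb).1, z3, z, mem_T.1 z1, mem_T.1 z2, ?_⟩
      intro l hl h1 h2 h3
      have : l ∈ S ∩ T g z := Finset.mem_inter.2 ⟨hl, mem_T.2 h3⟩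
      rw [hz2] at this
      simp only [Finset.mem_insert, Finset.mem_singleton] at this
      rcases this with h | h
      · exact h1 h
      · exact h2 h
  have key2 : ∀ z ∈ Lt, 2 ^ n ≤ 2 ^ L *
      ((Finset.univ : Finset (Finset ι)).filter (fun S => S ∩ T g z = {a z, b z})).card := by
    intro z hz
    obtain ⟨z1, z2, z3⟩ := hab z hz
    have h3 : 2 ^ ((T g z)ᶜ).card ≤
        ((Finset.univ : Finset (Finset ι)).filter (fun S => S ∩ T g z = {a z, b z})).card := by
      rw [← Finset.card_powerset]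
      apply Finset.card_le_card_of_injOn (fun S => S ∪ {a z, b z})
      · intro S hS
        have hS' : S ⊆ (T g z)ᶜ := Finset.mem_powerset.1 (Finset.mem_coe.1 hS)
        apply Finset.mem_coe.2
        rw [Finset.mem_filter]
        refine ⟨Finset.mem_univ _, ?_⟩
        ext x
        simp only [Finset.mem_inter, Finset.mem_union, Finset.mem_insert, Finset.mem_singleton]
        constructor
        · rintro ⟨h | h, hx⟩
          · exact absurd hx (Finset.mem_compl.1 (hS' h))
          · exact h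
        · intro h
          refine ⟨Or.inr h, ?_⟩
          rcases h with rfl | rfl
          · exact z1
          · exact z2
      · intro S hS S' hS' h
        have hS1 : S ⊆ (T g z)ᶜ := Finset.mem_powerset.1 (Finset.mem_coe.1 hS)
        have hS1' : S' ⊆ (T g z)ᶜ := Finset.mem_powerset.1 (Finset.mem_coe.1 hS')
        have aux : ∀ A B : Finset ι, A ⊆ (T g z)ᶜ → A ∪ {a z, b z} = B ∪ {a z, b z} → A ⊆ B := by
          intro A B hA hAB x hx
          have hx' : x ∈ B ∪ {a z, b z} := by rw [← hAB]; exact Finset.mem_union_left _ hx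
          rcases Finset.mem_union.1 hx' with h | h
          · exact h
          · exfalso
            have hxT := Finset.mem_compl.1 (hA hx)
            simp only [Finset.mem_insert, Finset.mem_singleton] at h
            rcases h with rfl | rfl
            · exact hxT z1
            · exact hxT z2
        exact Finset.Subset.antisymm (aux S S' hS1 h) (aux S' S hS1' h.symm)
    have h4 : (T g z).card + ((T g z)ᶜ).card = n := Finset.card_add_card_compl _
    have h5 := hL z hz
    calc 2 ^ n = 2 ^ (T g z).card * 2 ^ ((T g z)ᶜ).card := by rw [← pow_add, h4]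
      _ ≤ 2 ^ L * 2 ^ ((T g z)ᶜ).card := Nat.mul_le_mul_right _ (Nat.pow_le_pow_right (by norm_num) h5)
      _ ≤ _ := Nat.mul_le_mul_left _ h3
  have key3 : ∑ S : Finset ι, (Lt.filter (fun z => S ∩ T g z = {a z, b z})).card =
      ∑ z ∈ Lt, ((Finset.univ : Finset (Finset ι)).filter (fun S => S ∩ T g z = {a z, b z})).card := by
    simp only [Finset.card_filter]
    exact Finset.sum_comm
  have key4 : ∑ S : Finset ι, (Lt.filter (fun z => S ∩ T g z = {a z, b z})).card ≤ 2 ^ n * (14 * n) := by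
    refine (Finset.sum_le_sum (fun S _ => key1 S)).trans ?_
    rw [Finset.sum_const, Finset.card_univ, Fintype.card_finset, smul_eq_mul]
  have key5 : Lt.card * 2 ^ n ≤ 2 ^ L * ∑ S : Finset ι, (Lt.filter (fun z => S ∩ T g z = {a z, b z})).card := by
    rw [key3, Finset.mul_sum, ← smul_eq_mul]
    exact Finset.card_nsmul_le_sum Lt _ _ key2
  have key6 : Lt.card * 2 ^ n ≤ (2 ^ L * (14 * n)) * 2 ^ n := by
    calc Lt.card * 2 ^ n ≤ 2 ^ L * (2 ^ n * (14 * n)) := key5.trans (Nat.mul_le_mul_left _ key4)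
      _ = _ := by ring
  exact Nat.le_of_mul_le_mul_right key6 (by positivity)

/-- double counting of incidences -/
theorem sum_incid {g : ι → ℝ → ℂ} (Q : Finset ℂ) (w : ℂ → ℕ) (q : ι → Finset ℂ)
    (hq : ∀ i z, z ∈ q i ↔ z ∈ Q ∧ z ∈ range (g i)) :
    ∑ i, ∑ z ∈ q i, w z = ∑ z ∈ Q, (T g z).card * w z := by
  classical
  have h1 : ∀ i, q i = Q.filter (fun z => z ∈ range (g i)) := by
    intro i; ext z; rw [hq, Finset.mem_filter]
  simp only [h1, Finset.sum_filter]
  rw [Finset.sum_comm]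
  refine Finset.sum_congr rfl (fun z _ => ?_)
  rw [← Finset.sum_filter, Finset.sum_const, smul_eq_mul]
  rfl

/-- the degeneracy bound -/
theorem exists_low_degree [Nonempty ι] {g : ι → ℝ → ℂ} (hg : SFam g) (k : ℕ)
    (hk : ∀ z, (T g z).card ≤ k) (X : ι → Finset ι)
    (hX : ∀ i j, j ∈ X i → j ≠ i ∧ (range (g i) ∩ range (g j)).Nonempty) :
    ∃ i, (X i).card < k + 2 * (70 * 70 * (2 ^ 70 * 14)) := by
  classical
  set n := Fintype.card ι with hn
  have hnpos : 0 < n := Fintype.card_pos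
  set K : ℕ := 70 * 70 * (2 ^ 70 * 14) with hK
  have hKpos : 0 < K := by rw [hK]; positivity
  let P : Finset ℂ := (contact_finite hg).toFinset
  have hP : ∀ z, z ∈ P ↔ 2 ≤ (T g z).card := fun z => by simp [P]
  let H : Finset ℂ := P.filter (fun z => 70 ≤ (T g z).card)
  let Lt : Finset ℂ := P.filter (fun z => ¬ 70 ≤ (T g z).card)
  let h : ι → Finset ℂ := fun i => H.filter (fun z => z ∈ range (g i))
  let l : ι → Finset ℂ := fun i => Lt.filter (fun z => z ∈ range (g i))
  have hh : ∀ i z, z ∈ h i ↔ z ∈ H ∧ z ∈ range (g i) := fun i z => Finset.mem_filter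
  have hl : ∀ i z, z ∈ l i ↔ z ∈ Lt ∧ z ∈ range (g i) := fun i z => Finset.mem_filter
  have c1 : ∑ i, (h i).card = ∑ z ∈ H, (T g z).card := by
    have := sum_incid H (fun _ => 1) h hh
    simpa using this
  have c2 : 70 * H.card ≤ ∑ z ∈ H, (T g z).card := by
    rw [mul_comm, ← smul_eq_mul]
    exact Finset.card_nsmul_le_sum _ _ _ (fun z hz => (Finset.mem_filter.1 hz).2)
  have c3 := claimB hg H h hh
  have c4 : ∑ i, (h i).card ≤ ∑ i, ((h i).card - 1) + n := by
    rw [hn, ← Finset.card_univ, Finset.card_eq_sum_ones, ← Finset.sum_add_distrib]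
    exact Finset.sum_le_sum (fun i _ => by omega)
  have c5 : 56 * H.card ≤ n := by omega
  -- arcs with at least two heavy points
  let N2 : Finset ι := Finset.univ.filter (fun i => 2 ≤ (h i).card)
  have c6 : N2.card ≤ ∑ i, ((h i).card - 1) := by
    calc N2.card = ∑ i ∈ N2, 1 := by rw [Finset.card_eq_sum_ones]
      _ ≤ ∑ i ∈ N2, ((h i).card - 1) := Finset.sum_le_sum (fun i hi => by
          have := (Finset.mem_filter.1 hi).2; omega)
      _ ≤ ∑ i, ((h i).card - 1) := Finset.sum_le_sum_of_subset (Finset.filter_subset _ _)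
  have c7 : 4 * N2.card ≤ n := by omega
  have d1 : Lt.card ≤ 2 ^ 70 * (14 * n) := by
    apply light_count hg 70 Lt
    · intro z hz; exact (hP z).1 (Finset.mem_filter.1 hz).1
    · intro z hz
      have := (Finset.mem_filter.1 hz).2
      omega
  let x : ι → ℕ := fun i => ∑ z ∈ l i, ((T g z).card - 1)
  have d2 : ∑ i, x i ≤ K * n := by
    rw [show ∑ i, x i = ∑ z ∈ Lt, (T g z).card * ((T g z).card - 1) from
      sum_incid Lt (fun z => (T g z).card - 1) l hl]
    calc ∑ z ∈ Lt, (T g z).card * ((T g z).card - 1) ≤ ∑ z ∈ Lt, 70 * 70 := by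
          refine Finset.sum_le_sum (fun z hz => ?_)
          have := (Finset.mem_filter.1 hz).2
          exact Nat.mul_le_mul (by omega) (by omega)
      _ = Lt.card * (70 * 70) := by rw [Finset.sum_const, smul_eq_mul]
      _ ≤ (2 ^ 70 * (14 * n)) * (70 * 70) := Nat.mul_le_mul_right _ d1
      _ = K * n := by rw [hK]; ring
  have hex : ∃ i, (h i).card ≤ 1 ∧ x i < 2 * K := by
    by_contra hcon
    push Not at hcon
    have e1 : (Finset.univ \ N2).card * (2 * K) ≤ ∑ i, x i := by
      calc (Finset.univ \ N2).card * (2 * K) = ∑ i ∈ Finset.univ \ N2, 2 * K := by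
            rw [Finset.sum_const, smul_eq_mul]
        _ ≤ ∑ i ∈ Finset.univ \ N2, x i := Finset.sum_le_sum (fun i hi => by
            apply hcon i
            have h1 := (Finset.mem_sdiff.1 hi).2
            by_contra h2
            exact h1 (Finset.mem_filter.2 ⟨Finset.mem_univ _, by omega⟩))
        _ ≤ ∑ i, x i := Finset.sum_le_sum_of_subset (Finset.subset_univ _)
    have e2 : (Finset.univ \ N2).card + N2.card = n := by
      rw [Finset.card_sdiff_add_card_eq_card (Finset.subset_univ _), Finset.card_univ]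
    have e3 : 3 * n ≤ 4 * (Finset.univ \ N2).card := by omega
    have e4 : 3 * n * (2 * K) ≤ 4 * (K * n) := by
      calc 3 * n * (2 * K) ≤ 4 * (Finset.univ \ N2).card * (2 * K) := Nat.mul_le_mul_right _ e3
        _ = 4 * ((Finset.univ \ N2).card * (2 * K)) := by ring
        _ ≤ 4 * (K * n) := Nat.mul_le_mul_left _ (e1.trans d2)
    have e5 : 0 < K * n := Nat.mul_pos hKpos hnpos
    have e6 : 3 * n * (2 * K) = 6 * (K * n) := by ring
    omega
  obtain ⟨i, hi1, hi2⟩ := hex
  refine ⟨i, ?_⟩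
  have f1 : X i ⊆ (h i ∪ l i).biUnion (fun z => (T g z).erase i) := by
    intro j hj
    obtain ⟨hji, z, hz1, hz2⟩ := hX i j hj
    rw [Finset.mem_biUnion]
    have hzP : z ∈ P := by
      rw [hP]
      exact Finset.one_lt_card.2 ⟨i, mem_T.2 hz1, j, mem_T.2 hz2, hji.symm⟩
    refine ⟨z, ?_, Finset.mem_erase.2 ⟨hji, mem_T.2 hz2⟩⟩
    rw [Finset.mem_union, hh, hl]
    by_cases h70 : 70 ≤ (T g z).card
    · exact Or.inl ⟨Finset.mem_filter.2 ⟨hzP, h70⟩, hz1⟩
    · exact Or.inr ⟨Finset.mem_filter.2 ⟨hzP, h70⟩, hz1⟩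
  have f2 : (X i).card ≤ ∑ z ∈ h i ∪ l i, ((T g z).card - 1) := by
    refine (Finset.card_le_card f1).trans (Finset.card_biUnion_le.trans ?_)
    refine Finset.sum_le_sum (fun z hz => ?_)
    have : i ∈ T g z := by
      rw [Finset.mem_union, hh, hl] at hz
      rw [mem_T]
      rcases hz with hz | hz
      · exact hz.2
      · exact hz.2
    rw [Finset.card_erase_of_mem this]
  have f3 : ∑ z ∈ h i ∪ l i, ((T g z).card - 1) ≤ ∑ z ∈ h i, ((T g z).card - 1) + x i :=
    by
      have := Finset.sum_union_inter (s₁ := h i) (s₂ := l i) (f := fun z => (T g z).card - 1)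
      simp only [x]
      omega
  have f4 : ∑ z ∈ h i, ((T g z).card - 1) ≤ k := by
    calc ∑ z ∈ h i, ((T g z).card - 1) ≤ ∑ z ∈ h i, k :=
          Finset.sum_le_sum (fun z _ => (Nat.sub_le _ _).trans (hk z))
      _ = (h i).card * k := by rw [Finset.sum_const, smul_eq_mul]
      _ ≤ 1 * k := Nat.mul_le_mul_right _ hi1
      _ = k := one_mul k
  omega

end

end Pool.Agent.W95.TC
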