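import Pool.Agent.W95.TC.Count

set_option autoImplicit false
set_option linter.unusedVariables false

namespace Pool.Agent.W95.TC

open Complex Set

/-- the constant -/
def C0 : ℕ := 2 * (70 * 70 * (2 ^ 70 * 14))

theorem colour_finset {ι : Type} [Fintype ι] {g : ι → ℝ → ℂ} (hg : SFam g) (k : ℕ)
    (hk : ∀ z, (T g z).card ≤ k) (hpos : 0 < k + C0) : ∀ (m : ℕ) (S : Finset ι), S.card = m →
    ∃ f : ι → Fin (k + C0), ∀ i ∈ S, ∀ j ∈ S, i ≠ j → (range (g i) ∩ range (g j)).Nonempty →
      f i ≠ f j := by
  classical
  intro m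
  induction m with
  | zero =>
    intro S hS
    rw [Finset.card_eq_zero] at hS
    subst hS
    exact ⟨fun _ => ⟨0, hpos⟩, fun i hi => absurd hi (Finset.notMem_empty i)⟩
  | succ m ih =>
    intro S hS
    have hne : S.Nonempty := Finset.card_pos.1 (by omega)
    haveI : Nonempty S := ⟨⟨hne.choose, hne.choose_spec⟩⟩
    have hg' := hg.comp (fun x : S => x.1) Subtype.val_injective
    have hk' : ∀ z, (T (fun x : S => g x.1) z).card ≤ k := by
      intro z
      refine le_trans ?_ (hk z)
      rw [← Finset.card_map (Function.Embedding.subtype (fun x => x ∈ S))]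
      apply Finset.card_le_card
      intro x hx
      obtain ⟨y, hy, rfl⟩ := Finset.mem_map.1 hx
      have hy' : z ∈ range (g y.1) := (mem_T (g := fun x : S => g x.1)).1 hy
      exact mem_T.2 hy'
    obtain ⟨i, hi⟩ := exists_low_degree hg' k hk'
      (fun i => Finset.univ.filter (fun j => j ≠ i ∧ (range (g i.1) ∩ range (g j.1)).Nonempty))
      (fun i j hj => (Finset.mem_filter.1 hj).2)
    obtain ⟨f, hf⟩ := ih (S.erase i.1) (by rw [Finset.card_erase_of_mem i.2]; omega)
    -- a free colour
    set U : Finset S := Finset.univ.filter (fun j => j ≠ i ∧ (range (g i.1) ∩ range (g j.1)).Nonempty)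
    have hlt : (U.image (fun j => f j.1)).card < Fintype.card (Fin (k + C0)) := by
      rw [Fintype.card_fin]
      exact lt_of_le_of_lt Finset.card_image_le hi
    obtain ⟨c, hc⟩ : ∃ c, c ∉ U.image (fun j => f j.1) := by
      by_contra hcon
      push Not at hcon
      have : U.image (fun j => f j.1) = Finset.univ := Finset.eq_univ_iff_forall.2 hcon
      rw [this, Finset.card_univ] at hlt
      exact lt_irrefl _ hlt
    have hc' : ∀ j ∈ S, j ≠ i.1 → (range (g i.1) ∩ range (g j)).Nonempty → f j ≠ c := by
      intro j hj hji hint he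
      apply hc
      refine Finset.mem_image.2 ⟨⟨j, hj⟩, Finset.mem_filter.2 ⟨Finset.mem_univ _, ?_, hint⟩, he⟩
      intro h
      exact hji (congrArg Subtype.val h)
    refine ⟨Function.update f i.1 c, ?_⟩
    intro a ha b hb hab hint
    by_cases hai : a = i.1
    · subst hai
      have hbi : b ≠ i.1 := hab.symm
      rw [Function.update_self, Function.update_of_ne hbi]
      exact (hc' b hb hbi hint).symm
    · by_cases hbi : b = i.1
      · subst hbi
        rw [Function.update_self, Function.update_of_ne hai]
        exact hc' a ha hai (by rw [inter_comm]; exact hint)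
      · rw [Function.update_of_ne hai, Function.update_of_ne hbi]
        exact hf a (Finset.mem_erase.2 ⟨hai, ha⟩) b (Finset.mem_erase.2 ⟨hbi, hb⟩) hab hint

end Pool.Agent.W95.TC
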