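import Pool.Agent.H460TS.Walks

set_option autoImplicit false

namespace Pool.Agent.W95.TC

open Complex Set Pool.Agent.Helper448.VanKampen

export Pool.Agent.H460TS (no_K5)

/-- clamping to the unit interval -/
noncomputable def cl (t : ℝ) : ℝ := max 0 (min 1 t)

theorem cl_mem (t : ℝ) : cl t ∈ Icc (0 : ℝ) 1 := ⟨le_max_left _ _, max_le zero_le_one (min_le_left _ _)⟩
theorem cl_of_mem {t : ℝ} (h : t ∈ Icc (0 : ℝ) 1) : cl t = t := by
  unfold cl; rw [min_eq_right h.2, max_eq_right h.1]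
theorem cl_zero : cl 0 = 0 := cl_of_mem ⟨le_rfl, zero_le_one⟩
theorem cl_one : cl 1 = 1 := cl_of_mem ⟨zero_le_one, le_rfl⟩
theorem cl_cl (t : ℝ) : cl (cl t) = cl t := cl_of_mem (cl_mem t)
theorem continuous_cl : Continuous cl := by unfold cl; fun_prop
theorem cl_mono : Monotone cl := by
  intro a b h
  unfold cl
  exact max_le_max le_rfl (min_le_min le_rfl h)

/-- sub-arc from parameter `a` to parameter `b` -/
noncomputable def sub (u : ℝ → ℂ) (a b : ℝ) : ℝ → ℂ := fun x => u (a + cl x * (b - a))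

theorem sub_zero (u : ℝ → ℂ) (a b : ℝ) : sub u a b 0 = u a := by simp [sub, cl_zero]
theorem sub_one (u : ℝ → ℂ) (a b : ℝ) : sub u a b 1 = u b := by simp [sub, cl_one]
theorem sub_clamp (u : ℝ → ℂ) (a b x : ℝ) : sub u a b x = sub u a b (cl x) := by simp [sub, cl_cl]
theorem sub_cont {u : ℝ → ℂ} (hu : Continuous u) (a b : ℝ) : Continuous (sub u a b) := by
  unfold sub
  exact hu.comp (continuous_const.add (continuous_cl.mul continuous_const))
theorem sub_mem (u : ℝ → ℂ) (a b x : ℝ) : sub u a b x ∈ range u := ⟨_, rfl⟩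

theorem sub_par (a b x : ℝ) : a + cl x * (b - a) ∈ uIcc a b := by
  have h := cl_mem x
  rw [mem_uIcc]
  rcases le_total a b with hab | hab
  · left
    constructor
    · nlinarith [h.1, sub_nonneg.mpr hab, mul_nonneg h.1 (sub_nonneg.mpr hab)]
    · nlinarith [h.2, sub_nonneg.mpr hab, mul_nonneg (sub_nonneg.mpr h.2) (sub_nonneg.mpr hab)]
  · right
    constructor
    · nlinarith [h.2, sub_nonneg.mpr hab, mul_nonneg (sub_nonneg.mpr h.2) (sub_nonneg.mpr hab)]
    · nlinarith [h.1, sub_nonneg.mpr hab, mul_nonneg h.1 (sub_nonneg.mpr hab)]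

theorem sub_inc_mod {u : ℝ → ℂ} (hu : Continuous u) (a b : ℝ) (z : ℂ)
    (h : ∀ x, sub u a b x ≠ z) : ∃ n : ℤ, inc (fun x => sub u a b x - z) =
      log (u b - z) - log (u a - z) + n * (2 * Real.pi * I) := by
  obtain ⟨n, hn⟩ := inc_mod (fun x => sub u a b x - z) ((sub_cont hu a b).sub continuous_const)
    (fun x => sub_ne_zero.mpr (h x))
  refine ⟨n, ?_⟩
  rw [hn]
  simp only [sub_zero, sub_one]

/-- the two curves have vanishing intersection indices -/
def Sep (u v : ℝ → ℂ) : Prop := ∀ a b c d : ℝ, (∀ x, sub u a b x ≠ v c) →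
    (∀ x, sub u a b x ≠ v d) → (∀ x, sub v c d x ≠ u a) → (∀ x, sub v c d x ≠ u b) →
    inc (fun x => sub u a b x - v c) - inc (fun x => sub u a b x - v d)
      + inc (fun x => sub v c d x - u b) - inc (fun x => sub v c d x - u a) = 0

/-- A family of arcs in the plane, two of which share at most one point and have vanishing
intersection indices. -/
structure SFam {ι : Type} (g : ι → ℝ → ℂ) : Prop where
  cont : ∀ i, Continuous (g i)
  clamp : ∀ i t, g i t = g i (cl t)
  inj : ∀ i, InjOn (g i) (Icc 0 1)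
  one : ∀ i j, i ≠ j → (range (g i) ∩ range (g j)).Subsingleton
  sep : ∀ i j, i ≠ j → Sep (g i) (g j)

theorem SFam.comp {ι κ : Type} {g : ι → ℝ → ℂ} (h : SFam g) (e : κ → ι)
    (he : Function.Injective e) : SFam (fun k => g (e k)) :=
  ⟨fun k => h.cont _, fun k => h.clamp _, fun k => h.inj _,
    fun i j hij => h.one _ _ (he.ne hij), fun i j hij => h.sep _ _ (he.ne hij)⟩

/-- index relation for sub-arcs of two curves -/
theorem sub_sq {u v : ℝ → ℂ} (_hu : Continuous u) (_hv : Continuous v) (hs : Sep u v)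
    (a b c d : ℝ) (h1 : ∀ x, sub u a b x ≠ v c) (h2 : ∀ x, sub u a b x ≠ v d)
    (h3 : ∀ x, sub v c d x ≠ u a) (h4 : ∀ x, sub v c d x ≠ u b) :
    inc (fun x => sub u a b x - v c) - inc (fun x => sub u a b x - v d)
      + inc (fun x => sub v c d x - u b) - inc (fun x => sub v c d x - u a) = 0 :=
  hs a b c d h1 h2 h3 h4

end Pool.Agent.W95.TC
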